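import Pool.Agent.Helper56.LD.Goals

/-! Packet LD-CO2 (`StmtES`) for MP_0152c0_gt. -/

set_option autoImplicit false

namespace Pool.Agent.Helper89.LD

open Pool.Agent.Helper56.LD Set

theorem closed_ES : IsClosed ES := by
  have h : ES = ⋂ j : ℕ, {e : ℕ → Lab | Tr (j + 1) (e (j + 1)) (e j)} := by
    ext e
    simp only [ES, mem_setOf_eq, mem_iInter]
  rw [h]
  refine isClosed_iInter fun j => ?_
  have hc : Continuous fun e : ℕ → Lab => (e (j + 1), e j) :=
    (continuous_apply (j + 1)).prodMk (continuous_apply j)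
  have h2 : IsClosed {p : Lab × Lab | Tr (j + 1) p.1 p.2} := isClosed_discrete _
  exact h2.preimage hc

theorem nonempty_ES : ES.Nonempty := by
  refine ⟨fun _ => Sum.inl 0, ?_⟩
  intro j
  exact Or.inl rfl

theorem up_step {e : ℕ → Lab} (he : e ∈ ES) (j : ℕ) (h : IsMain (e j)) : IsMain (e (j + 1)) := by
  have ht := he j
  obtain ⟨τ, hτ⟩ := h
  rw [hτ] at ht
  rcases h1 : e (j + 1) with σ | ⟨κ, t⟩
  · exact ⟨σ, rfl⟩
  · rw [h1] at ht
    exact ht.elim

theorem up {e : ℕ → Lab} (he : e ∈ ES) (i j : ℕ) (hij : i ≤ j) (h : IsMain (e i)) :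
    IsMain (e j) := by
  induction j, hij using Nat.le_induction with
  | base => exact h
  | succ n _ ih => exact up_step he n ih

theorem kind_step {e : ℕ → Lab} (he : e ∈ ES) (j : ℕ) (κ : Bool) (t : Fin 3)
    (h : e (j + 1) = Sum.inr (κ, t)) : ∃ t', e j = Sum.inr (κ, t') := by
  have ht := he j
  rw [h] at ht
  rcases h1 : e j with σ | ⟨κ', t'⟩
  · rw [h1] at ht
    exact ht.elim
  · rw [h1] at ht
    obtain ⟨h2, -⟩ := ht
    exact ⟨t', by rw [h2]⟩

theorem kind {e : ℕ → Lab} (he : e ∈ ES) (i j : ℕ) (κ : Bool) (t : Fin 3) (hij : i ≤ j)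
    (h : e j = Sum.inr (κ, t)) : ∃ t', e i = Sum.inr (κ, t') := by
  induction j, hij using Nat.le_induction generalizing t with
  | base => exact ⟨t, h⟩
  | succ n _ ih =>
    obtain ⟨t', h'⟩ := kind_step he n κ t h
    exact ih t' h'

theorem glue {e s : ℕ → Lab} (he : e ∈ ES) (hs : s ∈ ES) (N : ℕ) (h : e N = s N) :
    (fun j => if j < N then e j else s j) ∈ ES := by
  intro j
  show Tr (j + 1) (if j + 1 < N then e (j + 1) else s (j + 1)) (if j < N then e j else s j)
  by_cases h1 : j + 1 < N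
  · have h2 : j < N := by omega
    rw [if_pos h1, if_pos h2]
    exact he j
  · by_cases h2 : j < N
    · have h3 : j + 1 = N := by omega
      rw [if_neg h1, if_pos h2]
      have h4 := he j
      rw [h3] at h4 ⊢
      rw [← h]
      exact h4
    · rw [if_neg h1, if_neg h2]
      exact hs j

theorem stmtES : StmtES :=
  ⟨closed_ES, nonempty_ES, fun e he i j hij h => up he i j hij h,
    fun e he i j κ t hij h => kind he i j κ t hij h,
    fun e he s hs N h => glue he hs N h⟩

end Pool.Agent.Helper89.LD
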